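import Pool.Agent.N173.BG.Stm

set_option autoImplicit false

/-! Project BG (helper173), part CRIT (helper897). -/

namespace Pool.Agent.N897.BG

open Finset Pool.Agent.TH858 Pool.Agent.TH858.GP Pool.Agent.N173.BG

theorem log2_gt : (0.69 : ℝ) < Real.log 2 := by
  have := Real.log_two_gt_d9
  linarith

theorem log4_lt : Real.log 4 < 1.39 := by
  have h : Real.log 4 = 2 * Real.log 2 := by
    rw [show (4 : ℝ) = 2 ^ 2 by norm_num, Real.log_pow]
    norm_num
  have := Real.log_two_lt_d9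
  rw [h]
  linarith

theorem log_le_half {t : ℝ} (ht : 0 < t) : Real.log t ≤ t / 2 := by
  have h1 := Real.log_le_sub_one_of_pos (show 0 < t / 2 by positivity)
  rw [Real.log_div ht.ne' (by norm_num)] at h1
  have := Real.log_two_lt_d9
  linarith

theorem t_CRIT (h1 : S_THM) (h2 : S_EXC) : S_CRIT := by
  intro C hC
  refine ⟨400 * C, by positivity, 1 / (80 * C), by positivity, ?_⟩
  intro N _ A X K hA hAN hX hXs hK hsub
  obtain ⟨l, hl⟩ : ∃ l, l = Real.log ((N : ℝ) / A.card) := ⟨_, rfl⟩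
  rw [← hl] at hXs hK ⊢
  have hC0 : 0 < C := by linarith
  have hN0 : (0 : ℝ) < N := by exact_mod_cast Nat.pos_of_ne_zero (NeZero.ne N)
  have hA0 : (0 : ℝ) < A.card := by exact_mod_cast hA.card_pos
  have hX0 : (0 : ℝ) < X.card := by exact_mod_cast hX.card_pos
  have hXN : (X.card : ℝ) ≤ N := by
    have h := Finset.card_le_univ X
    rw [ZMod.card] at h
    exact_mod_cast h
  have hl2 : Real.log 2 ≤ l := by
    rw [hl]
    apply Real.log_le_log (by norm_num)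
    rw [div_le_iff₀ hN0] at hAN
    rw [le_div_iff₀ hA0]
    linarith
  have hl0 : 0.69 < l := lt_of_lt_of_le log2_gt hl2
  obtain ⟨L, hL⟩ : ∃ L, L = Real.log (2 + l) := ⟨_, rfl⟩
  rw [← hL] at hXs
  have hL1 : Real.log 2 ≤ L := by
    rw [hL]
    apply Real.log_le_log (by norm_num)
    linarith
  have hL0 : 0.69 < L := lt_of_lt_of_le log2_gt hL1
  have hL2 : L ≤ (2 + l) / 2 := by
    rw [hL]
    exact log_le_half (by linarith)
  obtain ⟨D, hD⟩ : ∃ D, D = Real.log (4 * N / X.card) := ⟨_, rfl⟩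
  have hD1 : D ≤ Real.log 4 + C * l * L := by
    have h3 : 4 * (N : ℝ) / X.card ≤ 4 * Real.exp (C * l * L) := by
      rw [div_le_iff₀ hX0]
      have h4 : (N : ℝ) = Real.exp (C * l * L) * (N * Real.exp (-(C * l * L))) := by
        rw [mul_comm (N : ℝ), ← mul_assoc, ← Real.exp_add]
        simp
      have h5 : Real.exp (C * l * L) * (N * Real.exp (-(C * l * L))) ≤
          Real.exp (C * l * L) * X.card := mul_le_mul_of_nonneg_left hXs (Real.exp_pos _).le
      nlinarith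
    rw [hD]
    refine (Real.log_le_log (by positivity) h3).trans (le_of_eq ?_)
    rw [Real.log_mul (by norm_num) (Real.exp_pos _).ne', Real.log_exp]
  have hD0 : 0 ≤ D := by
    rw [hD]
    apply Real.log_nonneg
    rw [le_div_iff₀ hX0]
    linarith
  obtain ⟨M, hM⟩ : ∃ M : ℕ, M = ⌈D⌉₊ := ⟨_, rfl⟩
  have hM1 : D ≤ M := by rw [hM]; exact Nat.le_ceil D
  have hM2 : (M : ℝ) ≤ D + 1 := by
    rw [hM]
    exact (Nat.ceil_lt_add_one hD0).le
  have h4N : 4 * (N : ℝ) ≤ Real.exp M * X.card := by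
    have h3 : 4 * (N : ℝ) / X.card = Real.exp D := by
      rw [hD, Real.exp_log (by positivity)]
    have h4 : 4 * (N : ℝ) = Real.exp D * X.card := by
      rw [← h3, div_mul_cancel₀ _ hX0.ne']
    rw [h4]
    exact mul_le_mul_of_nonneg_right (Real.exp_le_exp.2 hM1) hX0.le
  obtain ⟨Y, hY⟩ : ∃ Y, Y = C * (2 + l) ^ 2 := ⟨_, rfl⟩
  have hY7 : 7.2 ≤ Y := by
    rw [hY]
    have : (7.2 : ℝ) ≤ (2 + l) ^ 2 := by nlinarith
    nlinarith
  have hlog4 := log4_lt
  have hMY : 2 * (M : ℝ) + 3 ≤ 2 * Y := by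
    have h3 : C * l * L ≤ C * l * ((2 + l) / 2) :=
      mul_le_mul_of_nonneg_left hL2 (by positivity)
    have h4 : 2 * (C * l * ((2 + l) / 2)) = Y - 2 * C * (2 + l) := by
      rw [hY]; ring
    have h5 : 2.69 ≤ C * (2 + l) := by nlinarith
    linarith
  obtain ⟨H, hH⟩ : ∃ H : ℕ, H = ⌈2 * Y⌉₊ := ⟨_, rfl⟩
  have hH1 : 2 * Y ≤ H := by rw [hH]; exact Nat.le_ceil _
  have hH2 : (H : ℝ) ≤ 2 * Y + 1 := by
    rw [hH]
    exact (Nat.ceil_lt_add_one (by linarith)).le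
  have hH3 : (H : ℝ) ≤ 3 * Y := by linarith
  have hMH : 2 * M + 3 ≤ H := by
    have : (2 * (M : ℝ) + 3) ≤ H := hMY.trans hH1
    exact_mod_cast this
  have hKK : 333000 * M ^ 7 * H ^ 2 ≤ K := by
    have h3 : (333000 : ℝ) * (M : ℝ) ^ 7 * (H : ℝ) ^ 2 ≤ K := by
      refine le_trans ?_ hK
      have hMY' : (M : ℝ) ≤ Y := by linarith
      have hY0 : 0 < Y := by linarith
      have e1 : (333000 : ℝ) * (M : ℝ) ^ 7 * (H : ℝ) ^ 2 ≤ 333000 * Y ^ 7 * (3 * Y) ^ 2 := by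
        gcongr
      have e2 : (333000 : ℝ) * Y ^ 7 * (3 * Y) ^ 2 = 2997000 * (C ^ 9 * (2 + l) ^ 18) := by
        rw [hY]
        generalize 2 + l = m
        ring
      have e3 : (2997000 : ℝ) ≤ (2 + l) ^ 22 := by
        calc (2997000 : ℝ) ≤ 2 ^ 22 := by norm_num
          _ ≤ (2 + l) ^ 22 := pow_le_pow_left₀ (by norm_num) (by linarith) 22
      have e4 : C ^ 9 ≤ C ^ 40 := pow_le_pow_right₀ hC (by norm_num)
      calc (333000 : ℝ) * (M : ℝ) ^ 7 * (H : ℝ) ^ 2 ≤ 2997000 * (C ^ 9 * (2 + l) ^ 18) := by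
            rw [← e2]; exact e1
        _ ≤ (2 + l) ^ 22 * (C ^ 40 * (2 + l) ^ 18) := by
            have hl' : (0 : ℝ) ≤ 2 + l := by linarith
            gcongr
        _ = (C * (2 + l)) ^ 40 := by
            generalize 2 + l = m
            ring
    exact_mod_cast h3
  obtain ⟨Γ₀, hΓ₀, hΓ₁⟩ := h1 N X M H K hX h4N hMH hKK
  rw [← hD] at hΓ₀
  have hY1 : (2 + l) ^ 2 ≤ Y := by
    rw [hY]
    exact le_mul_of_one_le_left (sq_nonneg _) hC
  have hlogH2 : 2 * L ≤ Real.log ((H : ℝ) / 2) := by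
    have h3 : (2 + l) ^ 2 ≤ (H : ℝ) / 2 := by linarith
    have h4 := Real.log_le_log (by nlinarith) h3
    rw [Real.log_pow] at h4
    rw [hL]
    push_cast at h4
    exact h4
  have hlogH : 2 * L ≤ Real.log H := by
    refine hlogH2.trans (Real.log_le_log ?_ ?_)
    · linarith
    · linarith
  have hfrac : D / (2 * L) ≤ 1 + C * l / 2 := by
    rw [div_le_iff₀ (by linarith)]
    have h3 : Real.log 4 ≤ 2 * L := by
      have h : Real.log 4 = 2 * Real.log 2 := by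
        rw [show (4 : ℝ) = 2 ^ 2 by norm_num, Real.log_pow]
        norm_num
      rw [h]
      linarith
    nlinarith
  have hf1 : D / Real.log ((H : ℝ) / 2) ≤ 1 + C * l / 2 :=
    (div_le_div_of_nonneg_left hD0 (by linarith) hlogH2).trans hfrac
  have hf2 : D / Real.log (H : ℝ) ≤ 1 + C * l / 2 :=
    (div_le_div_of_nonneg_left hD0 (by linarith) hlogH).trans hfrac
  have hCl : 0.69 ≤ C * l := by nlinarith
  have hΓ₂ : (Γ₀.card : ℝ) ≤ 137 * (C * l) := by
    have : (76 : ℝ) ≤ 111 * (C * l) := by linarith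
    linarith
  obtain ⟨B, hB⟩ : ∃ B : ℕ, B = ⌈4 * C * (2 + l)⌉₊ := ⟨_, rfl⟩
  have hB1 : 4 * C * (2 + l) ≤ B := by rw [hB]; exact Nat.le_ceil _
  have hB2 : (B : ℝ) ≤ 4 * C * (2 + l) + 1 := by
    rw [hB]
    exact (Nat.ceil_lt_add_one (by positivity)).le
  have hCl2 : 2.69 ≤ C * (2 + l) := by nlinarith
  have hB0 : (0 : ℝ) < B := by linarith
  have hB3 : 1 ≤ B := by
    have : 0 < B := by exact_mod_cast hB0
    omega
  obtain ⟨Γ, hΓ, hΓ'⟩ := h2 N Γ₀ B hB3
  refine ⟨Γ, 1 / (4 * B), by positivity, ?_, ?_, ?_⟩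
  · have h3 : (Γ.card : ℝ) ≤ 2 * Γ₀.card := by exact_mod_cast hΓ
    linarith
  · rw [div_div, div_le_div_iff₀ (by positivity) (by positivity)]
    have h3 : 2 + l ≤ 4 * l := by linarith
    have h4 : (B : ℝ) ≤ 5 * (C * (2 + l)) := by linarith
    have h5 : C * (2 + l) ≤ C * (4 * l) := mul_le_mul_of_nonneg_left h3 hC0.le
    linarith
  · intro x hx
    apply hsub
    apply hΓ₁
    intro γ hγ
    refine (hΓ' x hx γ hγ).trans ?_
    have hH0 : (0 : ℝ) < H := by linarith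
    rw [div_le_div_iff₀ (by positivity) (by positivity)]
    have h3 : (4 * C * (2 + l)) ^ 2 ≤ (B : ℝ) ^ 2 := pow_le_pow_left₀ (by positivity) hB1 2
    have h4 : (4 * C * (2 + l)) ^ 2 = 16 * C * Y := by rw [hY]; ring
    have h5 : 16 * Y ≤ 16 * C * Y := by nlinarith
    linarith

end Pool.Agent.N897.BG
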